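import Mathlib
import Pool.Agent.Lib.MP_12eaff_co.BK.Hax

/-! Reduction of the Borodin-Kostochka conjecture to maximum degree nine. -/

set_option autoImplicit false

namespace Pool.Agent.Lib.MP_12eaff_co.BK

open Finset
open scoped Classical

/-- The conjecture for `D` colours: degrees at most `D+1`, cliques at most `D`. -/
def BKat (D : ℕ) : Prop := ∀ (V : Type) [Fintype V] (G : SimpleGraph V),
  (∀ v, (nb G v).card ≤ D + 1) → (∀ Q, IsClq G Q → Q.card ≤ D) → Colr G D

namespace King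

variable {V : Type} [Fintype V] {G : SimpleGraph V} {k : ℕ}

/-- a set inside a closed neighbourhood is small. -/
theorem closed (hd : ∀ v, (nb G v).card ≤ k + 1) {v : V} {U : Finset V}
    (h : ∀ u ∈ U, u ≠ v → G.Adj v u) : U.card ≤ k + 2 := by
  have : U ⊆ insert v (nb G v) := fun u hu => by
    by_cases e : u = v
    · exact e ▸ mem_insert_self _ _
    · exact mem_insert_of_mem (mem_nb.2 (h u hu e))
  have h1 := card_le_card this
  have h2 := card_insert_le v (nb G v)
  have := hd v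
  omega

theorem inter (hd : ∀ v, (nb G v).card ≤ k + 1) {A B : Finset V} (hA : IsClq G A) (hB : IsClq G B)
    (a : A.card = k) (b : B.card = k) (h : (A ∩ B).Nonempty) : k ≤ (A ∩ B).card + 2 := by
  obtain ⟨v, hv⟩ := h
  have h1 := closed hd (v := v) (U := A ∪ B) fun u hu ne => by
    rcases mem_union.1 hu with q | q
    exacts [hA v (mem_inter.1 hv).1 u q ne.symm, hB v (mem_inter.1 hv).2 u q ne.symm]
  have := card_union_add_card_inter A B
  omega

omit [Fintype V] in
theorem two {A F T : Finset V} (hF : F ⊆ A) (hT : T ⊆ A) : F.card + T.card ≤ A.card + (F ∩ T).card := by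
  have h1 := card_union_add_card_inter F T
  have h2 := card_le_card (union_subset hF hT)
  omega

/-- the lemmas of Hajnal and Kostochka. -/
theorem haj (hk : 5 ≤ k) (hd : ∀ v, (nb G v).card ≤ k + 1) (hc : ∀ Q, IsClq G Q → Q.card ≤ k)
    {A : Finset V} (hA : IsClq G A) (a : A.card = k) (C : Finset (Finset V))
    (hC : ∀ B ∈ C, IsClq G B ∧ B.card = k ∧ (A ∩ B).Nonempty) :
    k ≤ (A.filter fun v => ∀ B ∈ C, v ∈ B).card + 2 ∧
      2 * k ≤ (A.filter fun v => ∀ B ∈ C, v ∈ B).card + (A ∪ C.biUnion id).card := by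
  induction C using Finset.induction_on with
  | empty => simp [a]; omega
  | insert B C _ ih =>
    obtain ⟨i1, i2⟩ := ih fun B' h => hC B' (mem_insert_of_mem h)
    obtain ⟨b1, b2, b3⟩ := hC B (mem_insert_self _ _)
    set F := A.filter fun v => ∀ B ∈ C, v ∈ B with hF
    set U := A ∪ C.biUnion id with hU
    have e1 : (A.filter fun v => ∀ B' ∈ insert B C, v ∈ B') = F ∩ B := by
      ext v
      simp only [hF, mem_filter, mem_inter, forall_mem_insert]
      tauto
    have e2 : A ∪ (insert B C).biUnion id = U ∪ B := by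
      rw [biUnion_insert, hU, id, union_comm B, union_assoc]
    have adj : ∀ v ∈ F, ∀ u ∈ U, u ≠ v → G.Adj v u := fun v hv u hu ne => by
      obtain ⟨v1, v2⟩ := mem_filter.1 hv
      rcases mem_union.1 hu with q | q
      · exact hA v v1 u q ne.symm
      · obtain ⟨B', q1, q2⟩ := mem_biUnion.1 q
        exact (hC B' (mem_insert_of_mem q1)).1 v (v2 B' q1) u q2 ne.symm
    have FU : F ⊆ U := fun v hv => mem_union_left _ (mem_filter.1 hv).1
    have w : ((F \ B) ∪ (U ∩ B)).card ≤ k := hc _ fun x hx y hy ne => by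
      rcases mem_union.1 hx with p | p <;> rcases mem_union.1 hy with q | q
      · exact adj x (mem_sdiff.1 p).1 y (FU (mem_sdiff.1 q).1) ne.symm
      · exact adj x (mem_sdiff.1 p).1 y (mem_inter.1 q).1 ne.symm
      · exact (adj y (mem_sdiff.1 q).1 x (mem_inter.1 p).1 ne).symm
      · exact b1 x (mem_inter.1 p).2 y (mem_inter.1 q).2 ne
    rw [card_union_of_disjoint (disjoint_left.2 fun x p q =>
      (mem_sdiff.1 p).2 (mem_inter.1 q).2)] at w
    have c1 := card_sdiff_add_card_inter F B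
    have c2 := card_union_add_card_inter U B
    have c3 := inter hd hA b1 a b2 b3
    have c4 := two (A := A) (F := F) (T := A ∩ B) (filter_subset _ _) inter_subset_left
    have c5 : (F ∩ (A ∩ B)).card ≤ (F ∩ B).card :=
      card_le_card (inter_subset_inter_left inter_subset_right)
    obtain ⟨v, hv⟩ : (F ∩ B).Nonempty := card_pos.1 (by omega)
    have c6 := closed hd (v := v) (U := U ∪ B) fun u hu ne => by
      rcases mem_union.1 hu with q | q
      exacts [adj v (mem_inter.1 hv).1 u q ne, b1 v (mem_inter.1 hv).2 u q ne.symm]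
    rw [e1, e2]
    omega

/-- the vertices common to all largest cliques that meet `A`. -/
noncomputable def core (G : SimpleGraph V) (k : ℕ) (A : Finset V) : Finset V :=
  A.filter fun v => ∀ B, IsClq G B → B.card = k → (A ∩ B).Nonempty → v ∈ B

theorem core_card (hk : 5 ≤ k) (hd : ∀ v, (nb G v).card ≤ k + 1)
    (hc : ∀ Q, IsClq G Q → Q.card ≤ k) {A : Finset V} (hA : IsClq G A) (a : A.card = k) :
    k ≤ (core G k A).card + 2 := by
  have := (haj hk hd hc hA a (univ.filter fun B => IsClq G B ∧ B.card = k ∧ (A ∩ B).Nonempty)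
    fun B h => (mem_filter.1 h).2).1
  convert this using 3
  ext v
  simp [core]

theorem trans (hk : 5 ≤ k) (hd : ∀ v, (nb G v).card ≤ k + 1) {A B C : Finset V} (hA : IsClq G A)
    (hB : IsClq G B) (hC : IsClq G C) (a : A.card = k) (b : B.card = k) (c : C.card = k)
    (h1 : (A ∩ B).Nonempty) (h2 : (A ∩ C).Nonempty) : (B ∩ C).Nonempty := by
  have c1 := inter hd hA hB a b h1
  have c2 := inter hd hA hC a c h2
  have c3 := two (A := A) (F := A ∩ B) (T := A ∩ C) inter_subset_left inter_subset_left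
  obtain ⟨v, hv⟩ : ((A ∩ B) ∩ (A ∩ C)).Nonempty := card_pos.1 (by omega)
  simp only [mem_inter] at hv
  exact ⟨v, mem_inter.2 ⟨hv.1.2, hv.2.2⟩⟩

theorem core_sub (hk : 5 ≤ k) (hd : ∀ v, (nb G v).card ≤ k + 1) {A B : Finset V} (hA : IsClq G A)
    (hB : IsClq G B) (a : A.card = k) (b : B.card = k) (h : (A ∩ B).Nonempty) :
    core G k A ⊆ core G k B := fun v hv => by
  obtain ⟨-, v2⟩ := mem_filter.1 hv
  exact mem_filter.2 ⟨v2 B hB b h, fun C hC c h' =>
    v2 C hC c (trans hk hd hB hA hC b a c (by rwa [inter_comm]) h')⟩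

/-- an independent set meets every largest clique. -/
theorem hit (hk : 6 ≤ k) (hd : ∀ v, (nb G v).card ≤ k + 1) (hc : ∀ Q, IsClq G Q → Q.card ≤ k) :
    ∃ I : Finset V, (∀ u ∈ I, ∀ v ∈ I, ¬ G.Adj u v) ∧
      ∀ A, IsClq G A → A.card = k → ∃ v ∈ I, v ∈ A := by
  by_cases ne : Nonempty V
  swap
  · refine ⟨∅, by simp, fun A _ a => ?_⟩
    obtain ⟨v, -⟩ : A.Nonempty := card_pos.1 (by omega)
    exact absurd ⟨v⟩ ne
  have k5 : 5 ≤ k := by omega
  set K := univ.filter fun A : Finset V => IsClq G A ∧ A.card = k with hK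
  have mK : ∀ A, A ∈ K ↔ IsClq G A ∧ A.card = k := fun A => by simp [hK]
  have same : ∀ A ∈ K, ∀ B ∈ K, (A ∩ B).Nonempty → core G k A = core G k B := fun A a B b h =>
    Subset.antisymm (core_sub k5 hd ((mK A).1 a).1 ((mK B).1 b).1 ((mK A).1 a).2 ((mK B).1 b).2 h)
      (core_sub k5 hd ((mK B).1 b).1 ((mK A).1 a).1 ((mK B).1 b).2 ((mK A).1 a).2
        (by rwa [inter_comm]))
  obtain ⟨g, g1, g2⟩ := hax_ne (Finset V) V (K.image (core G k)) id
    (fun u v => G.Adj u v ∧ (∃ A ∈ K, u ∈ A) ∧ (∃ A ∈ K, v ∈ A) ∧ ∀ A ∈ K, ¬ (u ∈ A ∧ v ∈ A)) 2 ne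
    (fun u v h => ⟨h.1.symm, h.2.2.1, h.2.1, fun A a q => h.2.2.2 A a q.symm⟩)
    (fun v => by
      by_cases q : ∃ A ∈ K, v ∈ A
      · obtain ⟨A, a, hv⟩ := q
        refine ⟨nb G v \ A, ?_, fun u h => mem_sdiff.2 ⟨mem_nb.2 h.1, fun q => h.2.2.2 A a ⟨hv, q⟩⟩⟩
        have c1 := card_sdiff_add_card_inter (nb G v) A
        have c2 : (A.erase v).card ≤ (nb G v ∩ A).card := card_le_card fun u hu =>
          mem_inter.2 ⟨mem_nb.2 (((mK A).1 a).1 v hv u (mem_of_mem_erase hu) (ne_of_mem_erase hu).symm),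
            mem_of_mem_erase hu⟩
        rw [card_erase_of_mem hv, ((mK A).1 a).2] at c2
        have := hd v
        omega
      · exact ⟨∅, by simp, fun u h => absurd h.2.1 q⟩)
    (fun P hP Q hQ ne => by
      obtain ⟨A, a, rfl⟩ := mem_image.1 hP
      obtain ⟨B, b, rfl⟩ := mem_image.1 hQ
      exact disjoint_left.2 fun v p q => ne (same A a B b
        ⟨v, mem_inter.2 ⟨(mem_filter.1 p).1, (mem_filter.1 q).1⟩⟩))
    (by omega)
    (fun P hP => by
      obtain ⟨A, a, rfl⟩ := mem_image.1 hP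
      have := core_card k5 hd hc ((mK A).1 a).1 ((mK A).1 a).2
      simp only [id]
      omega)
  refine ⟨(K.image (core G k)).image g, fun u hu v hv h => ?_, fun A hA a => ?_⟩
  · obtain ⟨P, hP, rfl⟩ := mem_image.1 hu
    obtain ⟨Q, hQ, rfl⟩ := mem_image.1 hv
    have p := g1 P hP
    have q := g1 Q hQ
    have ne : P ≠ Q := fun e => h.ne (by rw [e])
    obtain ⟨A, a, rfl⟩ := mem_image.1 hP
    obtain ⟨B, b, rfl⟩ := mem_image.1 hQ
    have p1 := (mem_filter.1 p).1
    have q1 := (mem_filter.1 q).1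
    refine g2 _ hP _ hQ ne ⟨h, ⟨A, a, p1⟩, ⟨B, b, q1⟩, fun C c r => ne ?_⟩
    rw [same A a C c ⟨_, mem_inter.2 ⟨p1, r.1⟩⟩, same B b C c ⟨_, mem_inter.2 ⟨q1, r.2⟩⟩]
  · have m : core G k A ∈ K.image (core G k) := mem_image_of_mem _ ((mK A).2 ⟨hA, a⟩)
    exact ⟨_, mem_image_of_mem _ m, (mem_filter.1 (g1 _ m)).1⟩

/-- every independent set lies in a dominating independent set. -/
theorem maxi (I : Finset V) (hI : ∀ u ∈ I, ∀ v ∈ I, ¬ G.Adj u v) :
    ∃ M : Finset V, I ⊆ M ∧ (∀ u ∈ M, ∀ v ∈ M, ¬ G.Adj u v) ∧ ∀ v, v ∉ M → ∃ u ∈ M, G.Adj v u := by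
  obtain ⟨M, hM, mx⟩ := exists_max_image
    (univ.filter fun M : Finset V => I ⊆ M ∧ ∀ u ∈ M, ∀ v ∈ M, ¬ G.Adj u v) card
    ⟨I, mem_filter.2 ⟨mem_univ _, Subset.rfl, hI⟩⟩
  obtain ⟨m1, m2⟩ := (mem_filter.1 hM).2
  refine ⟨M, m1, m2, fun v hv => by_contra fun q => ?_⟩
  push Not at q
  have := mx (insert v M) (mem_filter.2 ⟨mem_univ _, m1.trans (subset_insert _ _), fun a ha b hb h => by
    rcases mem_insert.1 ha with rfl | p <;> rcases mem_insert.1 hb with rfl | r
    exacts [h.ne rfl, q b r h, q a p h.symm, m2 a p b r h]⟩)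
  rw [card_insert_of_notMem hv] at this
  omega

end King

/-- one more colour. -/
theorem bkat_succ {D : ℕ} (hD : 5 ≤ D) (h : BKat D) : BKat (D + 1) := by
  intro V _ G hd hc
  obtain ⟨I, i1, i2⟩ := King.hit (k := D + 1) (by omega) hd hc
  obtain ⟨M, m1, m2, m3⟩ := King.maxi I i1
  let G' : SimpleGraph V :=
    ⟨fun u v => G.Adj u v ∧ u ∉ M ∧ v ∉ M, ⟨fun u v q => ⟨q.1.symm, q.2.2, q.2.1⟩⟩,
      ⟨fun u q => q.1.ne rfl⟩⟩
  obtain ⟨c, c1, c2⟩ := h V G' (fun v => by
    by_cases hv : v ∈ M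
    · rw [show nb G' v = ∅ from eq_empty_of_forall_notMem fun u q => (mem_nb.1 q).2.1 hv]
      simp
    · obtain ⟨u, u1, u2⟩ := m3 v hv
      have s : nb G' v ⊆ (nb G v).erase u := fun w q =>
        mem_erase.2 ⟨fun e => (mem_nb.1 q).2.2 (e ▸ u1), mem_nb.2 (mem_nb.1 q).1⟩
      have := card_le_card s
      rw [card_erase_of_mem (mem_nb.2 u2)] at this
      have := hd v
      omega) (fun Q hQ => by
    have q : IsClq G Q := fun a ha b hb ne => (hQ a ha b hb ne).1
    by_contra lt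
    have e : Q.card = D + 1 := by have := hc Q q; omega
    obtain ⟨v, v1, v2⟩ := i2 Q q e
    obtain ⟨u, u1, u2⟩ := exists_mem_ne (show 1 < Q.card by omega) v
    exact (hQ u u1 v v2 u2).2.2 (m1 v1))
  refine ⟨fun v => if v ∈ M then D else c v, fun v => ?_, fun u v a => ?_⟩
  · have := c1 v
    show (if v ∈ M then D else c v) < D + 1
    split_ifs <;> omega
  · have p := c1 u
    have q := c1 v
    show (if u ∈ M then D else c u) ≠ (if v ∈ M then D else c v)
    split_ifs with hu hv hv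
    · exact absurd a (m2 u hu v hv)
    · omega
    · omega
    · exact c2 u v ⟨a, hu, hv⟩

theorem bkat_of_le {D D' : ℕ} (hD : 5 ≤ D) (h : BKat D) (le : D ≤ D') : BKat D' := by
  induction D', le using Nat.le_induction with
  | base => exact h
  | succ n hn ih => exact bkat_succ (by omega) ih

/-- the conjecture from one value of the maximum degree on. -/
theorem bk_of {D : ℕ} (hD : 5 ≤ D) (h : BKat D) (V : Type) [Fintype V] (G : SimpleGraph V)
    [DecidableRel G.Adj] (h9 : D + 1 ≤ G.maxDegree) (hc : G.CliqueFree G.maxDegree) :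
    G.Colorable (G.maxDegree - 1) := by
  obtain ⟨c, c1, c2⟩ := bkat_of_le (D' := G.maxDegree - 1) hD h (by omega) V G (fun v => by
    have a := G.degree_le_maxDegree v
    have b : (nb G v).card = G.degree v := by
      rw [← SimpleGraph.card_neighborFinset_eq_degree]
      congr 1
      ext x
      simp
    omega) (fun Q hQ => by
    by_contra q
    obtain ⟨Q', a, b⟩ := exists_subset_card_eq (show G.maxDegree ≤ Q.card by omega)
    exact hc Q' ⟨fun x hx y hy hne => hQ x (a hx) y (a hy) hne, b⟩)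
  rw [SimpleGraph.colorable_iff_exists_bdd_nat_coloring]
  exact ⟨SimpleGraph.Coloring.mk c (fun {u w} h => c2 u w h), c1⟩

end Pool.Agent.Lib.MP_12eaff_co.BK
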